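import Mathlib

set_option autoImplicit false

namespace Pool.Agent.Results.MP_0f2923_nt.NullTwoXMinusY

open MeasureTheory

/-- Allowed digits in base eleven. -/
def Good (a : Fin 11) : Prop := a = 1 ∨ a = 3 ∨ a = 4 ∨ a = 5 ∨ a = 9

instance (a : Fin 11) : Decidable (Good a) := by unfold Good; infer_instance

/-- The compact building block, translated by natural numbers. -/
def E : Set ℝ := {x | ∃ (n : ℕ) (f : ℕ → Fin 11), (∀ k, Good (f k)) ∧ x = n + Real.ofDigits f}

lemma head (f : ℕ → Fin 11) :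
    11 * Real.ofDigits f = ((f 0 : ℕ) : ℝ) + Real.ofDigits (fun i => f (i+1)) := by
  have h := Real.ofDigits_eq_sum_add_ofDigits f 1
  simp only [Finset.range_one, Finset.sum_singleton, Real.ofDigitsTerm] at h
  rw [h]
  push_cast
  ring

lemma pow_shift (f : ℕ → Fin 11) (j : ℕ) :
    ∃ N : ℤ, (11:ℝ) ^ j * Real.ofDigits f = N + Real.ofDigits (fun i => f (i+j)) := by
  induction j with
  | zero => exact ⟨0, by simp⟩
  | succ j ih =>
    obtain ⟨N, hN⟩ := ih
    have h := head (fun i => f (i+j))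
    refine ⟨11 * N + ((f (0+j) : ℕ) : ℤ), ?_⟩
    rw [pow_succ]
    have e : (fun i => f (i + (j+1))) = (fun i => (fun i => f (i+j)) (i+1)) := by
      funext i; simp only []; congr 1; ring
    rw [e]
    push_cast
    linarith

/-- The finite check on two consecutive digits with a carry. -/
lemma digit_check : ∀ a b c d : Fin 11, Good a → Good b → Good c → Good d →
    ∀ e ∈ ({-1, 0, 1} : Finset ℤ),
      ¬ (121 : ℤ) ∣ (11 * (2 * (a : ℕ) - (b : ℕ)) + (2 * (c : ℕ) - (d : ℕ)) - e) := by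
  decide +kernel

lemma pos_of_good (f : ℕ → Fin 11) (hf : ∀ k, Good (f k)) : 0 < Real.ofDigits f := by
  have h := head f
  have h1 := Real.ofDigits_nonneg (fun i => f (i+1))
  have h2 : 1 ≤ (f 0 : ℕ) := by
    rcases hf 0 with h | h | h | h | h <;> rw [h] <;> decide
  have h3 : (1:ℝ) ≤ ((f 0 : ℕ) : ℝ) := by exact_mod_cast h2
  linarith

/-- Fractional parts of points of the form `2x - y` avoid a short interval. -/
lemma fract_core (f g : ℕ → Fin 11) (hf : ∀ k, Good (f k)) (hg : ∀ k, Good (g k)) :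
    1/121 ≤ Int.fract (2 * Real.ofDigits f - Real.ofDigits g) := by
  by_contra hlt
  push Not at hlt
  set τ := 2 * Real.ofDigits f - Real.ofDigits g with hτ
  set M := ⌊τ⌋ with hM
  have hfr : τ = M + Int.fract τ := (Int.floor_add_fract τ).symm
  have hfr0 : 0 ≤ Int.fract τ := Int.fract_nonneg τ
  have f0 := head f
  have f1 := head (fun i => f (i+1))
  have g0 := head g
  have g1 := head (fun i => g (i+1))
  simp only [Nat.zero_add] at f1 g1
  set F := Real.ofDigits (fun i => f (i+1+1)) with hF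
  set G := Real.ofDigits (fun i => g (i+1+1)) with hG
  have F0 : 0 ≤ F := Real.ofDigits_nonneg _
  have F1 : F ≤ 1 := Real.ofDigits_le_one _
  have G0 : 0 < G := pos_of_good _ (fun k => hg _)
  have G1 : G ≤ 1 := Real.ofDigits_le_one _
  have key : (11 * (2 * ((f 0 : ℕ) : ℝ) - ((g 0 : ℕ) : ℝ)) + (2 * ((f 1 : ℕ) : ℝ) - ((g 1 : ℕ) : ℝ)))
      - 121 * M = 121 * Int.fract τ - (2 * F - G) := by
    have : 121 * τ = 121 * M + 121 * Int.fract τ := by linarith
    rw [hτ] at this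
    linarith
  set c : ℤ := (11 * (2 * ((f 0 : ℕ) : ℤ) - ((g 0 : ℕ) : ℤ)) + (2 * ((f 1 : ℕ) : ℤ) - ((g 1 : ℕ) : ℤ)))
      - 121 * M with hc
  have hcR : (c : ℝ) = 121 * Int.fract τ - (2 * F - G) := by
    rw [← key, hc]; push_cast; ring
  have c1 : (c : ℝ) < 2 := by rw [hcR]; linarith
  have c2 : (-2 : ℝ) < c := by rw [hcR]; linarith
  have c1' : c < 2 := by exact_mod_cast c1
  have c2' : -2 < c := by exact_mod_cast c2
  have hmem : c ∈ ({-1, 0, 1} : Finset ℤ) := by
    have : c = -1 ∨ c = 0 ∨ c = 1 := by omega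
    simpa using this
  have := digit_check (f 0) (g 0) (f 1) (g 1) (hf 0) (hg 0) (hf 1) (hg 1) c hmem
  apply this
  refine ⟨M, ?_⟩
  rw [hc]; ring

/-- The invariant null set. -/
def S : Set ℝ := {z | ∀ j : ℕ, 1/121 ≤ Int.fract ((11:ℝ) ^ j * z)}

lemma phi_subset : {z : ℝ | ∃ x ∈ E, ∃ y ∈ E, 2 * x - y = z} ⊆ S := by
  rintro z ⟨x, ⟨n, f, hf, rfl⟩, y, ⟨m, g, hg, rfl⟩, rfl⟩ j
  obtain ⟨N, hN⟩ := pow_shift f j
  obtain ⟨N', hN'⟩ := pow_shift g j
  have e : (11:ℝ) ^ j * (2 * ((n:ℝ) + Real.ofDigits f) - ((m:ℝ) + Real.ofDigits g))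
      = (2 * Real.ofDigits (fun i => f (i+j)) - Real.ofDigits (fun i => g (i+j)))
        + ((11 ^ j * (2 * (n:ℤ) - m) + 2 * N - N' : ℤ) : ℝ) := by
    push_cast
    linear_combination 2 * hN - hN'
  rw [e, Int.fract_add_intCast]
  exact fract_core _ _ (fun k => hf _) (fun k => hg _)

lemma S_shift (z : ℝ) (hz : z ∈ S) (n : ℤ) : z + n ∈ S := by
  intro j
  have e : (11:ℝ) ^ j * (z + n) = 11 ^ j * z + ((11 ^ j * n : ℤ) : ℝ) := by push_cast; ring
  rw [e, Int.fract_add_intCast]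
  exact hz j

lemma S_mul (z : ℝ) (hz : z ∈ S) : 121 * z ∈ S := by
  intro j
  have e : (11:ℝ) ^ j * (121 * z) = 11 ^ (j+2) * z := by ring
  rw [e]
  exact hz (j+2)

lemma S_unit_null : volume (S ∩ Set.Ico 0 1) = 0 := by
  set T := S ∩ Set.Ico (0:ℝ) 1 with hT
  have hfin : volume T ≠ ⊤ := by
    have : volume T ≤ volume (Set.Ico (0:ℝ) 1) := measure_mono Set.inter_subset_right
    rw [Real.volume_Ico] at this
    exact ne_top_of_le_ne_top (by simp) this
  have hcov : T ⊆ ⋃ c ∈ Finset.Icc (1:ℤ) 120, ((121:ℝ) * ·) ⁻¹' ((fun w => w + (-(c:ℝ))) ⁻¹' T) := by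
    rintro z ⟨hzS, hz0, hz1⟩
    simp only [Set.mem_iUnion]
    refine ⟨⌊121 * z⌋, ?_, ?_⟩
    · rw [Finset.mem_Icc]
      constructor
      · rw [Int.le_floor]
        have h0 := hzS 0
        rw [pow_zero, one_mul, Int.fract_eq_self.2 ⟨hz0, hz1⟩] at h0
        push_cast
        linarith
      · have : ⌊121 * z⌋ < 121 := by
          rw [Int.floor_lt]
          push_cast
          linarith
        omega
    · show 121 * z + (-((⌊121 * z⌋ : ℤ) : ℝ)) ∈ T
      refine ⟨?_, ?_, ?_⟩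
      · have := S_shift _ (S_mul z hzS) (-⌊121 * z⌋)
        simpa using this
      · have := Int.floor_le (121 * z)
        linarith
      · have := Int.lt_floor_add_one (121 * z)
        linarith
  have hle : volume T ≤ ∑ c ∈ Finset.Icc (1:ℤ) 120,
      volume (((121:ℝ) * ·) ⁻¹' ((fun w => w + (-(c:ℝ))) ⁻¹' T)) :=
    (measure_mono hcov).trans (measure_biUnion_finset_le _ _)
  have hone : ∀ c ∈ Finset.Icc (1:ℤ) 120,
      volume (((121:ℝ) * ·) ⁻¹' ((fun w => w + (-(c:ℝ))) ⁻¹' T)) = ENNReal.ofReal (1/121) * volume T := by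
    intro c _
    rw [Real.volume_preimage_mul_left (by norm_num), measure_preimage_add_right]
    congr 2
    rw [abs_of_pos (by norm_num)]
    norm_num
  rw [Finset.sum_congr rfl hone, Finset.sum_const, Int.card_Icc] at hle
  by_contra hne
  have hreal : (volume T).toReal ≤ (120 : ℝ) * ((1/121) * (volume T).toReal) := by
    have h := ENNReal.toReal_mono (by
      simp only [nsmul_eq_mul]
      exact ENNReal.mul_ne_top (by simp) (ENNReal.mul_ne_top (by simp) hfin)) hle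
    rw [nsmul_eq_mul, ENNReal.toReal_mul, ENNReal.toReal_mul, ENNReal.toReal_ofReal (by norm_num)] at h
    simpa using h
  have hpos : 0 < (volume T).toReal := ENNReal.toReal_pos hne hfin
  linarith

lemma S_null : volume S = 0 := by
  have hcov : S ⊆ ⋃ n : ℤ, (fun w => w + (-(n:ℝ))) ⁻¹' (S ∩ Set.Ico 0 1) := by
    intro z hz
    rw [Set.mem_iUnion]
    refine ⟨⌊z⌋, ?_, ?_, ?_⟩
    · have := S_shift z hz (-⌊z⌋)
      simpa using this
    · have := Int.floor_le z
      show 0 ≤ z + (-((⌊z⌋ : ℤ) : ℝ))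
      linarith
    · have := Int.lt_floor_add_one z
      show z + (-((⌊z⌋ : ℤ) : ℝ)) < 1
      linarith
  refine measure_mono_null hcov (measure_iUnion_null fun n => ?_)
  rw [measure_preimage_add_right]
  exact S_unit_null

/-- Balanced digits are differences of allowed digits. -/
lemma diff_digits : ∀ d : Fin 11, ∃ a b : Fin 11, Good a ∧ Good b ∧
    ((a : ℕ) : ℤ) - ((b : ℕ) : ℤ) = ((d : ℕ) : ℤ) - 5 := by
  decide +kernel

lemma ofDigits_diff (f g d : ℕ → Fin 11)
    (h : ∀ k, ((f k : ℕ) : ℤ) - ((g k : ℕ) : ℤ) = ((d k : ℕ) : ℤ) - 5) :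
    Real.ofDigits f - Real.ofDigits g = Real.ofDigits d - 1/2 := by
  have hc : Real.ofDigits (fun _ : ℕ => (5 : Fin 11)) = 1/2 := by
    have := head (fun _ : ℕ => (5 : Fin 11))
    have h5 : (((5 : Fin 11) : ℕ) : ℝ) = 5 := by norm_num
    rw [h5] at this
    linarith
  rw [← hc]
  unfold Real.ofDigits
  rw [← (Real.summable_ofDigitsTerm).tsum_sub Real.summable_ofDigitsTerm,
    ← (Real.summable_ofDigitsTerm).tsum_sub Real.summable_ofDigitsTerm]
  congr 1
  funext k
  have hk : ((f k : ℕ) : ℝ) - ((g k : ℕ) : ℝ) = ((d k : ℕ) : ℝ) - (((5 : Fin 11) : ℕ) : ℝ) := by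
    have h5 : (((5 : Fin 11) : ℕ) : ℝ) = 5 := by norm_num
    rw [h5]
    exact_mod_cast h k
  simp only [Real.ofDigitsTerm]
  rw [← sub_mul, ← sub_mul, hk]

lemma diff_all (t : ℝ) : ∃ x ∈ E, ∃ y ∈ E, x - y = t := by
  have hr : Int.fract (t + 1/2) ∈ Set.Ico (0:ℝ) 1 := ⟨Int.fract_nonneg _, Int.fract_lt_one _⟩
  have hd := Real.ofDigits_digits (b := 11) (by norm_num) hr
  set d := Real.digits (Int.fract (t + 1/2)) 11 with hdd
  choose a b ha hb hab using diff_digits
  set m := ⌊t + 1/2⌋ with hm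
  have hdiff := ofDigits_diff (fun k => a (d k)) (fun k => b (d k)) d (fun k => hab (d k))
  refine ⟨(m.toNat : ℕ) + Real.ofDigits (fun k => a (d k)), ⟨m.toNat, _, fun k => ha _, rfl⟩,
    ((-m).toNat : ℕ) + Real.ofDigits (fun k => b (d k)), ⟨(-m).toNat, _, fun k => hb _, rfl⟩, ?_⟩
  have h1 : ((m.toNat : ℕ) : ℝ) - (((-m).toNat : ℕ) : ℝ) = m := by
    have : ((m.toNat : ℕ) : ℤ) - (((-m).toNat : ℕ) : ℤ) = m := by omega
    exact_mod_cast this
  have h2 := Int.floor_add_fract (t + 1/2)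
  rw [← hm] at h2
  linarith

/-- There is a set `E` of positive reals with `E - E = ℝ` for which the set of all `2x - y`
with `x, y` in `E` has Lebesgue measure zero. -/
theorem result : ∃ E : Set ℝ, E ⊆ Set.Ioi 0 ∧
    {t : ℝ | ∃ x ∈ E, ∃ y ∈ E, x - y = t} = Set.univ ∧
    MeasureTheory.volume {z : ℝ | ∃ x ∈ E, ∃ y ∈ E, 2 * x - y = z} = 0 := by
  refine ⟨E, ?_, ?_, ?_⟩
  · rintro x ⟨n, f, hf, rfl⟩
    have := pos_of_good f hf
    have hn : (0:ℝ) ≤ n := Nat.cast_nonneg n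
    show 0 < (n:ℝ) + Real.ofDigits f
    linarith
  · rw [Set.eq_univ_iff_forall]
    intro t
    exact diff_all t
  · exact measure_mono_null phi_subset S_null

end Pool.Agent.Results.MP_0f2923_nt.NullTwoXMinusY
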